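import Mathlib

set_option autoImplicit false

/-!
The skew form attached to odd order off-diagonally symmetric alternating sign matrices.
-/

noncomputable section

namespace Pool.Agent.Q258.OS

open Polynomial

/-- the bilinear form of an array -/
def bil (c : ℕ → ℕ → ℚ) : ℚ[X] →ₗ[ℚ] ℚ[X] →ₗ[ℚ] ℚ :=
  (Polynomial.basisMonomials ℚ).constr ℚ (fun a => (Polynomial.basisMonomials ℚ).constr ℚ (fun b => c a b))

theorem bil_monomial (c : ℕ → ℕ → ℚ) (a b : ℕ) (x y : ℚ) :
    bil c (monomial a x) (monomial b y) = x * y * c a b := by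
  have h1 : monomial a x = x • (Polynomial.basisMonomials ℚ) a := by
    rw [Polynomial.coe_basisMonomials, smul_monomial, smul_eq_mul, mul_one]
  have h2 : monomial b y = y • (Polynomial.basisMonomials ℚ) b := by
    rw [Polynomial.coe_basisMonomials, smul_monomial, smul_eq_mul, mul_one]
  rw [h1, h2]
  simp only [map_smul, LinearMap.smul_apply, bil, Module.Basis.constr_basis, smul_eq_mul]
  ring

theorem bil_X_pow (c : ℕ → ℕ → ℚ) (a b : ℕ) : bil c (X ^ a) (X ^ b) = c a b := by
  rw [← monomial_one_right_eq_X_pow, ← monomial_one_right_eq_X_pow, bil_monomial]; ring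

/-- two bilinear forms which agree on monomials -/
theorem bil_ext {B B' : ℚ[X] →ₗ[ℚ] ℚ[X] →ₗ[ℚ] ℚ} (h : ∀ a b : ℕ, B (X ^ a) (X ^ b) = B' (X ^ a) (X ^ b)) :
    B = B' := by
  apply Polynomial.lhom_ext'
  intro a
  apply LinearMap.ext_ring
  apply Polynomial.lhom_ext'
  intro b
  apply LinearMap.ext_ring
  have := h a b
  simpa [monomial_one_right_eq_X_pow] using this

/-- the properties of the array of the coefficients of `(y - x) / ((1 - x y) (1 - x - y))` -/
structure IsArr (c : ℕ → ℕ → ℚ) : Prop where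
  skew : ∀ a b, c a b = - c b a
  zero : ∀ a, c (a + 1) 0 = -1
  one : ∀ a, c (a + 2) 1 = -(a + 2)
  recur : ∀ a b, c (a + 2) (b + 2) = c (a + 2) (b + 1) + c (a + 1) (b + 2) + c (a + 1) (b + 1) -
    c (a + 1) b - c a (b + 1)

variable {c : ℕ → ℕ → ℚ}

theorem IsArr.bil_skew (h : IsArr c) (f g : ℚ[X]) : bil c f g = - bil c g f := by
  have e : bil c = - (bil c).flip := by
    apply bil_ext
    intro a b
    rw [bil_X_pow, LinearMap.neg_apply, LinearMap.neg_apply, LinearMap.flip_apply, bil_X_pow, h.skew]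
  have := LinearMap.congr_fun (LinearMap.congr_fun e f) g
  simpa using this

theorem IsArr.c00 (h : IsArr c) : c 0 0 = 0 := by have := h.skew 0 0; linarith
theorem IsArr.c11 (h : IsArr c) : c 1 1 = 0 := by have := h.skew 1 1; linarith

/-- the relation on products -/
theorem IsArr.ideal (h : IsArr c) (f g : ℚ[X]) : bil c (X ^ 2 * f) (X ^ 2 * g) - bil c (X ^ 2 * f) (X * g) -
    bil c (X * f) (X ^ 2 * g) - bil c (X * f) (X * g) + bil c (X * f) g + bil c f (X * g) = 0 := by
  let mL : ℚ[X] → (ℚ[X] →ₗ[ℚ] ℚ[X]) := fun p => LinearMap.mulLeft ℚ p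
  let B' : ℚ[X] →ₗ[ℚ] ℚ[X] →ₗ[ℚ] ℚ := (bil c).compl₁₂ (mL (X ^ 2)) (mL (X ^ 2)) -
    (bil c).compl₁₂ (mL (X ^ 2)) (mL X) - (bil c).compl₁₂ (mL X) (mL (X ^ 2)) -
    (bil c).compl₁₂ (mL X) (mL X) + (bil c).compl₁₂ (mL X) (mL 1) + (bil c).compl₁₂ (mL 1) (mL X)
  have e : B' = 0 := by
    apply bil_ext
    intro a b
    simp only [B', mL, LinearMap.add_apply, LinearMap.sub_apply, LinearMap.compl₁₂_apply, LinearMap.mulLeft_apply,
      LinearMap.zero_apply, one_mul]
    rw [← pow_add, ← pow_add, ← pow_succ', ← pow_succ', bil_X_pow, bil_X_pow, bil_X_pow, bil_X_pow, bil_X_pow,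
      bil_X_pow]
    have := h.recur a b
    rw [add_comm 2 a, add_comm 2 b, this]
    ring
  have := LinearMap.congr_fun (LinearMap.congr_fun e f) g
  simpa [B', mL] using this

/-- the relation after the reflection -/
theorem IsArr.ideal' (h : IsArr c) (f g : ℚ[X]) :
    bil c ((1 - X) ^ 2 * f) ((1 - X) ^ 2 * g) - bil c ((1 - X) ^ 2 * f) ((1 - X) * g) -
    bil c ((1 - X) * f) ((1 - X) ^ 2 * g) - bil c ((1 - X) * f) ((1 - X) * g) + bil c ((1 - X) * f) g +
    bil c f ((1 - X) * g) = 0 := by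
  have e1 : ∀ f : ℚ[X], (1 - X) ^ 2 * f = f - (2 : ℚ) • (X * f) + X ^ 2 * f := by
    intro f; rw [Polynomial.smul_eq_C_mul]; simp only [map_ofNat]; ring
  have e2 : ∀ f : ℚ[X], (1 - X) * f = f - X * f := by intro f; ring
  have := h.ideal f g
  rw [e1, e1, e2, e2]
  simp only [map_add, map_sub, map_smul, LinearMap.add_apply, LinearMap.sub_apply, LinearMap.smul_apply,
    smul_eq_mul]
  linarith

/-- the reflected array -/
def cs (c : ℕ → ℕ → ℚ) (a b : ℕ) : ℚ := bil c ((1 - X) ^ a) ((1 - X) ^ b)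

theorem IsArr.cs_rec (h : IsArr c) (a b : ℕ) : cs c (a + 2) (b + 2) = cs c (a + 2) (b + 1) +
    cs c (a + 1) (b + 2) + cs c (a + 1) (b + 1) - cs c (a + 1) b - cs c a (b + 1) := by
  have := h.ideal' ((1 - X) ^ a) ((1 - X) ^ b)
  unfold cs
  have e2 : ∀ n : ℕ, ((1 : ℚ[X]) - X) ^ (n + 2) = (1 - X) ^ 2 * (1 - X) ^ n := by intro n; ring
  have e1 : ∀ n : ℕ, ((1 : ℚ[X]) - X) ^ (n + 1) = (1 - X) * (1 - X) ^ n := by intro n; ring
  rw [e2 a, e2 b, e1 a, e1 b]
  linarith

theorem IsArr.cs_skew (h : IsArr c) (a b : ℕ) : cs c a b = - cs c b a := h.bil_skew _ _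

/-- the form against the constants -/
theorem IsArr.bil_one (h : IsArr c) (f : ℚ[X]) : bil c f 1 = f.eval 0 - f.eval 1 := by
  have e : (bil c).flip 1 = Polynomial.leval 0 - Polynomial.leval 1 := by
    apply Polynomial.lhom_ext'
    intro a
    apply LinearMap.ext_ring
    simp only [LinearMap.comp_apply, LinearMap.flip_apply, monomial_one_right_eq_X_pow, LinearMap.sub_apply,
      Polynomial.leval_apply, eval_pow, eval_X, one_pow]
    have h1 : (1 : ℚ[X]) = X ^ 0 := (pow_zero _).symm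
    rw [h1, bil_X_pow]
    cases a with
    | zero => rw [h.c00]; simp
    | succ a => rw [h.zero]; simp
  have := LinearMap.congr_fun e f
  simpa using this

/-- the form against the variable -/
theorem IsArr.bil_X (h : IsArr c) (h01 : c 0 1 = 1) (f : ℚ[X]) :
    bil c f X = f.eval 0 + f.derivative.eval 0 - f.derivative.eval 1 := by
  have e : (bil c).flip X = Polynomial.leval 0 + (Polynomial.leval 0) ∘ₗ Polynomial.derivative -
      (Polynomial.leval 1) ∘ₗ Polynomial.derivative := by
    apply Polynomial.lhom_ext'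
    intro a
    apply LinearMap.ext_ring
    simp only [LinearMap.comp_apply, LinearMap.flip_apply, monomial_one_right_eq_X_pow, LinearMap.sub_apply,
      LinearMap.add_apply, Polynomial.leval_apply, eval_pow, eval_X, derivative_X_pow]
    have h1 : bil c (X ^ a) X = bil c (X ^ a) (X ^ 1) := by rw [pow_one]
    rw [h1, bil_X_pow]
    match a with
    | 0 => rw [h01]; simp
    | 1 => rw [h.c11]; simp
    | a + 2 => rw [h.one]; simp
  have := LinearMap.congr_fun e f
  simpa using this

/-- **the form changes sign under the reflection** -/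
theorem IsArr.cs_eq (h : IsArr c) (h01 : c 0 1 = 1) : ∀ a b : ℕ, cs c a b = - c a b := by
  have h0 : ∀ a, cs c a 0 = - c a 0 := by
    intro a
    unfold cs
    rw [pow_zero, h.bil_one]
    cases a with
    | zero => rw [h.c00]; simp
    | succ a => rw [h.zero]; simp
  have h1 : ∀ a, cs c a 1 = - c a 1 := by
    intro a
    unfold cs
    rw [pow_one, map_sub, h.bil_one, h.bil_X h01]
    match a with
    | 0 => rw [h01]; simp
    | 1 => rw [h.c11]; simp
    | a + 2 =>
      rw [h.one, derivative_pow]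
      simp
  have h0' : ∀ b, cs c 0 b = - c 0 b := fun b => by rw [h.cs_skew, h0, h.skew 0 b]
  have h1' : ∀ b, cs c 1 b = - c 1 b := fun b => by rw [h.cs_skew, h1, h.skew 1 b]
  have key : ∀ n a b : ℕ, a + b ≤ n → cs c a b = - c a b := by
    intro n
    induction n using Nat.strong_induction_on with
    | _ n ih =>
      intro a b hab
      match a, b with
      | a, 0 => exact h0 a
      | a, 1 => exact h1 a
      | 0, b => exact h0' b
      | 1, b => exact h1' b
      | a + 2, b + 2 =>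
        rw [h.cs_rec, h.recur, ih (a + 2 + (b + 1)) (by omega) _ _ le_rfl, ih (a + 1 + (b + 2)) (by omega) _ _ le_rfl,
          ih (a + 1 + (b + 1)) (by omega) _ _ le_rfl, ih (a + 1 + b) (by omega) _ _ le_rfl,
          ih (a + (b + 1)) (by omega) _ _ le_rfl]
        ring
  exact fun a b => key (a + b) a b le_rfl

theorem IsArr.bil_comp (h : IsArr c) (h01 : c 0 1 = 1) (f g : ℚ[X]) :
    bil c (f.comp (1 - X)) (g.comp (1 - X)) = - bil c f g := by
  let σ : ℚ[X] →ₗ[ℚ] ℚ[X] := (Polynomial.compRingHom (1 - X)).toAddMonoidHom.toRatLinearMap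
  have hσ : ∀ f, σ f = f.comp (1 - X) := fun f => rfl
  have e : (bil c).compl₁₂ σ σ = - bil c := by
    apply bil_ext
    intro a b
    rw [LinearMap.compl₁₂_apply, hσ, hσ, LinearMap.neg_apply, LinearMap.neg_apply, bil_X_pow, X_pow_comp,
      X_pow_comp]
    exact h.cs_eq h01 a b
  have := LinearMap.congr_fun (LinearMap.congr_fun e f) g
  simpa [hσ] using this

/-- powers of the centred variable of the same parity are orthogonal -/
theorem IsArr.centred (h : IsArr c) (h01 : c 0 1 = 1) (i j : ℕ) (hij : Even (i + j)) :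
    bil c ((X - C (1 / 2)) ^ i) ((X - C (1 / 2)) ^ j) = 0 := by
  have h1 := h.bil_comp h01 ((X - C (1 / 2)) ^ i) ((X - C (1 / 2)) ^ j)
  have e : ∀ n : ℕ, (((X : ℚ[X]) - C (1 / 2)) ^ n).comp (1 - X) = (-1 : ℚ) ^ n • (X - C (1 / 2)) ^ n := by
    intro n
    rw [pow_comp, sub_comp, X_comp, C_comp, Polynomial.smul_eq_C_mul, map_pow, ← mul_pow]
    congr 1
    have : (1 : ℚ[X]) = C (1 / 2) + C (1 / 2) := by rw [← C_add]; norm_num
    rw [map_neg, map_one]
    nth_rewrite 1 [this]
    ring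
  rw [e, e] at h1
  simp only [map_smul, LinearMap.smul_apply, smul_smul] at h1
  rw [← pow_add, add_comm j i, hij.neg_one_pow, one_smul] at h1
  linarith

end Pool.Agent.Q258.OS
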