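import Pool.Agent.Q258.OS.Pf

set_option autoImplicit false

/-!
The generating function `(y - x) / ((1 - x y) (1 - x - y))`.
-/

noncomputable section

namespace Pool.Agent.Q258.OS

open PowerSeries

/-- the coefficient of `x ^ a y ^ b` of a power series in `y` over the power series in `x` -/
def co (F : PowerSeries (PowerSeries ℚ)) (a b : ℕ) : ℚ := coeff a (coeff b F)

theorem gen_rec' {F : PowerSeries (PowerSeries ℚ)} (p q r s : PowerSeries ℚ)
    (hF : F * C p - F * C q * X + F * C r * X * X = X - C s) :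
    (coeff 0 F * p = - s) ∧ (coeff 1 F * p - coeff 0 F * q = 1) ∧
    ∀ b, coeff (b + 2) F * p - coeff (b + 1) F * q + coeff b F * r = 0 := by
  refine ⟨?_, ?_, fun b => ?_⟩
  · have := congrArg (coeff 0) hF
    simp only [map_add, map_sub, coeff_mul_C, coeff_zero_mul_X, coeff_zero_X, coeff_C, if_true] at this
    simpa using this
  · have := congrArg (coeff 1) hF
    have s1 : ∀ G : PowerSeries (PowerSeries ℚ), coeff 1 (G * X) = coeff 0 G := fun G => coeff_succ_mul_X 0 G
    simp only [map_add, map_sub, s1, coeff_zero_mul_X, coeff_mul_C, coeff_one_X, coeff_C] at this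
    simpa using this
  · have := congrArg (coeff (b + 2)) hF
    have s1 : ∀ (G : PowerSeries (PowerSeries ℚ)) (n : ℕ), coeff (n + 1) (G * X) = coeff n G :=
      fun G n => coeff_succ_mul_X n G
    have s2 : ∀ (G : PowerSeries (PowerSeries ℚ)) (n : ℕ), coeff (n + 2) (G * X) = coeff (n + 1) G :=
      fun G n => coeff_succ_mul_X (n + 1) G
    simp only [map_add, map_sub, s2, s1, coeff_mul_C, coeff_X, coeff_C] at this
    simpa using this

theorem gen_rec {F : PowerSeries (PowerSeries ℚ)}
    (hF : F * ((1 - C (X : PowerSeries ℚ) * X) * (1 - C (X : PowerSeries ℚ) - X)) = X - C (X : PowerSeries ℚ)) :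
    (coeff 0 F * (1 - X) = - X) ∧ (coeff 1 F * (1 - X) - coeff 0 F * (1 + X - X ^ 2) = 1) ∧
    ∀ b, coeff (b + 2) F * (1 - X) - coeff (b + 1) F * (1 + X - X ^ 2) + coeff b F * X = 0 := by
  have e : (1 - C (X : PowerSeries ℚ) * X) * (1 - C (X : PowerSeries ℚ) - X) =
      C (1 - X : PowerSeries ℚ) - C (1 + X - X ^ 2 : PowerSeries ℚ) * X + C (X : PowerSeries ℚ) * X * X := by
    simp only [map_sub, map_add, map_one, map_pow]
    ring
  have e2 : F * (C (1 - X : PowerSeries ℚ) - C (1 + X - X ^ 2 : PowerSeries ℚ) * X + C (X : PowerSeries ℚ) * X * X) =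
      F * C (1 - X : PowerSeries ℚ) - F * C (1 + X - X ^ 2 : PowerSeries ℚ) * X +
        F * C (X : PowerSeries ℚ) * X * X := by ring
  rw [e, e2] at hF
  exact gen_rec' _ _ _ _ hF

theorem isArr_of_gen {F : PowerSeries (PowerSeries ℚ)}
    (hF : F * ((1 - C (X : PowerSeries ℚ) * X) * (1 - C (X : PowerSeries ℚ) - X)) = X - C (X : PowerSeries ℚ)) :
    IsArr (co F) ∧ co F 0 1 = 1 := by
  obtain ⟨h0, h1, h2⟩ := gen_rec hF
  have m0 : ∀ g : PowerSeries ℚ, coeff 0 (g * (1 - X)) = coeff 0 g := by
    intro g; rw [mul_sub, mul_one, map_sub, coeff_zero_mul_X, sub_zero]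
  have m1 : ∀ (g : PowerSeries ℚ) (a : ℕ), coeff (a + 1) (g * (1 - X)) = coeff (a + 1) g - coeff a g := by
    intro g a; rw [mul_sub, mul_one, map_sub, coeff_succ_mul_X]
  have e : ∀ g : PowerSeries ℚ, g * (1 + X - X ^ 2) = g + g * X - g * X * X := by intro g; ring
  have q0 : ∀ g : PowerSeries ℚ, coeff 0 (g * (1 + X - X ^ 2)) = coeff 0 g := by
    intro g; rw [e, map_sub, map_add, coeff_zero_mul_X, coeff_zero_mul_X]; ring
  have q1 : ∀ g : PowerSeries ℚ, coeff 1 (g * (1 + X - X ^ 2)) = coeff 1 g + coeff 0 g := by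
    intro g
    have s1 : ∀ G : PowerSeries ℚ, coeff 1 (G * X) = coeff 0 G := fun G => coeff_succ_mul_X 0 G
    rw [e, map_sub, map_add, s1, s1, coeff_zero_mul_X]; ring
  have q2 : ∀ (g : PowerSeries ℚ) (a : ℕ), coeff (a + 2) (g * (1 + X - X ^ 2)) =
      coeff (a + 2) g + coeff (a + 1) g - coeff a g := by
    intro g a
    have s1 : ∀ (G : PowerSeries ℚ) (n : ℕ), coeff (n + 1) (G * X) = coeff n G := fun G n => coeff_succ_mul_X n G
    have s2 : ∀ (G : PowerSeries ℚ) (n : ℕ), coeff (n + 2) (G * X) = coeff (n + 1) G :=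
      fun G n => coeff_succ_mul_X (n + 1) G
    rw [e, map_sub, map_add, s2, s2, s1]
  -- the column `0`
  have c00 : co F 0 0 = 0 := by
    have := congrArg (coeff 0) h0
    rw [m0, map_neg, coeff_zero_X] at this
    simpa [co] using this
  have c10 : co F 1 0 = -1 := by
    have := congrArg (coeff 1) h0
    rw [m1 _ 0, map_neg, coeff_one_X] at this
    have h : coeff 0 (coeff 0 F) = 0 := c00
    rw [h] at this
    simpa [co] using this
  have ca0 : ∀ a, co F (a + 1) 0 = -1 := by
    intro a
    induction a with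
    | zero => exact c10
    | succ a ih =>
      have := congrArg (coeff (a + 1 + 1)) h0
      rw [m1, map_neg, coeff_X, if_neg (by omega)] at this
      have h : coeff (a + 1) (coeff 0 F) = -1 := ih
      rw [h] at this
      show coeff (a + 1 + 1) (coeff 0 F) = -1
      linarith
  -- the column `1`
  have c01 : co F 0 1 = 1 := by
    have := congrArg (coeff 0) h1
    rw [map_sub, m0, q0] at this
    have h : coeff 0 (coeff 0 F) = 0 := c00
    rw [h] at this
    simpa [co] using this
  have c11 : co F 1 1 = 0 := by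
    have := congrArg (coeff 1) h1
    rw [map_sub, m1 _ 0, q1, coeff_one] at this
    have h : coeff 0 (coeff 0 F) = 0 := c00
    have h' : coeff 1 (coeff 0 F) = -1 := c10
    have h'' : coeff 0 (coeff 1 F) = 1 := c01
    rw [h, h', h''] at this
    show coeff 1 (coeff 1 F) = 0
    simp at this
    linarith
  have c21 : co F 2 1 = -2 := by
    have := congrArg (coeff 2) h1
    rw [map_sub, m1 _ 1, q2 _ 0, coeff_one] at this
    have g0 : coeff 0 (coeff 0 F) = 0 := c00
    have g1 : coeff (0 + 1) (coeff 0 F) = -1 := ca0 0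
    have g2 : coeff (0 + 2) (coeff 0 F) = -1 := ca0 1
    have g3 : coeff 1 (coeff 1 F) = 0 := c11
    rw [g0, g1, g2, g3] at this
    show coeff 2 (coeff 1 F) = -2
    simp at this
    linarith
  have ca1 : ∀ a, co F (a + 2) 1 = -(a + 2) := by
    intro a
    induction a with
    | zero => rw [c21]; norm_num
    | succ a ih =>
      have := congrArg (coeff (a + 1 + 2)) h1
      have e3 : a + 1 + 2 = a + 2 + 1 := by ring
      rw [map_sub, e3, m1 _ (a + 2), ← e3, q2 _ (a + 1), coeff_one] at this
      have g0 : coeff (a + 1) (coeff 0 F) = -1 := ca0 a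
      have g1 : coeff (a + 1 + 1) (coeff 0 F) = -1 := ca0 (a + 1)
      have g2 : coeff (a + 1 + 2) (coeff 0 F) = -1 := ca0 (a + 2)
      have g3 : coeff (a + 2) (coeff 1 F) = -(a + 2) := ih
      rw [g0, g1, g2, g3, if_neg (by omega)] at this
      show coeff (a + 1 + 2) (coeff 1 F) = _
      push_cast
      linarith
  -- the recursion
  have hrec : ∀ a b, co F (a + 2) (b + 2) = co F (a + 2) (b + 1) + co F (a + 1) (b + 2) +
      co F (a + 1) (b + 1) - co F (a + 1) b - co F a (b + 1) := by
    intro a b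
    have := congrArg (coeff (a + 2)) (h2 b)
    have s2 : ∀ (G : PowerSeries ℚ) (n : ℕ), coeff (n + 2) (G * X) = coeff (n + 1) G :=
      fun G n => coeff_succ_mul_X (n + 1) G
    rw [map_add, map_sub, m1 _ (a + 1), q2, s2, map_zero] at this
    unfold co
    linarith
  have hr0 : ∀ b, co F 0 (b + 1) = 1 := by
    intro b
    induction b with
    | zero => exact c01
    | succ b ih =>
      have := congrArg (coeff 0) (h2 b)
      rw [map_add, map_sub, m0, q0, coeff_zero_mul_X, map_zero] at this
      have g : coeff 0 (coeff (b + 1) F) = 1 := ih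
      rw [g] at this
      show coeff 0 (coeff (b + 2) F) = 1
      linarith
  have hr1 : ∀ b, co F 1 (b + 2) = b + 2 := by
    intro b
    induction b with
    | zero =>
      have := congrArg (coeff 1) (h2 0)
      have s1 : ∀ G : PowerSeries ℚ, coeff 1 (G * X) = coeff 0 G := fun G => coeff_succ_mul_X 0 G
      rw [map_add, map_sub, m1 _ 0, q1, s1, map_zero] at this
      have g1 : coeff 0 (coeff (0 + 2) F) = 1 := hr0 1
      have g2 : coeff 1 (coeff (0 + 1) F) = 0 := c11
      have g3 : coeff 0 (coeff (0 + 1) F) = 1 := c01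
      have g4 : coeff 0 (coeff 0 F) = 0 := c00
      rw [g1, g2, g3, g4] at this
      show coeff 1 (coeff (0 + 2) F) = _
      push_cast
      have g5 : coeff (0 + 1) (coeff (0 + 2) F) = coeff 1 (coeff (0 + 2) F) := rfl
      linarith
    | succ b ih =>
      have := congrArg (coeff 1) (h2 (b + 1))
      have s1 : ∀ G : PowerSeries ℚ, coeff 1 (G * X) = coeff 0 G := fun G => coeff_succ_mul_X 0 G
      rw [map_add, map_sub, m1 _ 0, q1, s1, map_zero] at this
      have g1 : coeff 0 (coeff (b + 1 + 2) F) = 1 := hr0 (b + 2)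
      have g2 : coeff 1 (coeff (b + 1 + 1) F) = b + 2 := ih
      have g3 : coeff 0 (coeff (b + 1 + 1) F) = 1 := hr0 (b + 1)
      have g4 : coeff 0 (coeff (b + 1) F) = 1 := hr0 b
      rw [g1, g2, g3, g4] at this
      show coeff 1 (coeff (b + 1 + 2) F) = _
      have g5 : coeff (0 + 1) (coeff (b + 1 + 2) F) = coeff 1 (coeff (b + 1 + 2) F) := rfl
      push_cast
      linarith
  refine ⟨⟨?_, ca0, ca1, hrec⟩, c01⟩
  have key : ∀ n a b : ℕ, a + b ≤ n → co F a b = - co F b a := by
    intro n
    induction n using Nat.strong_induction_on with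
    | _ n ih =>
      intro a b hab
      match a, b with
      | 0, 0 => rw [c00]; norm_num
      | a + 1, 0 => rw [ca0, hr0]
      | 0, b + 1 => rw [ca0, hr0]; norm_num
      | 1, 1 => rw [c11]; norm_num
      | a + 2, 1 => rw [ca1, hr1]
      | 1, b + 2 => rw [ca1, hr1]; ring
      | a + 2, b + 2 =>
        rw [hrec, hrec, ih (a + 2 + (b + 1)) (by omega) _ _ le_rfl, ih (a + 1 + (b + 2)) (by omega) _ _ le_rfl,
          ih (a + 1 + (b + 1)) (by omega) _ _ le_rfl, ih (a + 1 + b) (by omega) _ _ le_rfl,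
          ih (a + (b + 1)) (by omega) _ _ le_rfl]
        ring
  exact fun a b => key (a + b) a b le_rfl

/-- the generating function exists and is unique -/
theorem gen_exists : ∃! F : PowerSeries (PowerSeries ℚ),
    F * ((1 - C (X : PowerSeries ℚ) * X) * (1 - C (X : PowerSeries ℚ) - X)) = X - C (X : PowerSeries ℚ) := by
  have hu : IsUnit ((1 - C (X : PowerSeries ℚ) * X) * (1 - C (X : PowerSeries ℚ) - X) :
      PowerSeries (PowerSeries ℚ)) := by
    rw [PowerSeries.isUnit_iff_constantCoeff, PowerSeries.isUnit_iff_constantCoeff]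
    simp
  obtain ⟨u, hu⟩ := hu
  refine ⟨(X - C (X : PowerSeries ℚ)) * (↑u⁻¹ : PowerSeries (PowerSeries ℚ)), ?_, ?_⟩
  · beta_reduce
    rw [← hu, mul_assoc, Units.inv_mul, mul_one]
  · intro G hG
    rw [← hu] at hG
    rw [← hG, mul_assoc, Units.mul_inv, mul_one]

end Pool.Agent.Q258.OS
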