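import Pool.Agent.Q258.OS.Form

set_option autoImplicit false

/-!
Pfaffians of bordered skew matrices.
-/

noncomputable section

namespace Pool.Agent.Q258.OS

open Finset

set_option linter.unusedSectionVars false

variable {ι : Type*} [DecidableEq ι] [Fintype ι] {m : ℕ}

/-- the product of a permutation over the pairs `(l k, r k)` -/
def G (l r : Fin m → ι) (A : ι → ι → ℚ) (σ : Equiv.Perm ι) : ℚ := ∏ k, A (σ (l k)) (σ (r k))

/-- the signed sum of the products -/
def pfs (l r : Fin m → ι) (A : ι → ι → ℚ) : ℚ :=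
  ∑ σ : Equiv.Perm ι, ((Equiv.Perm.sign σ : ℤ) : ℚ) * G l r A σ

/-- replace the row and the column `p` -/
def upd (A : ι → ι → ℚ) (p : ι) (v v' : ι → ℚ) (a b : ι) : ℚ :=
  if a = p then (if b = p then 0 else v b) else if b = p then v' a else A a b

/-- pairs of indices which form a partition -/
structure Pairs (l r : Fin m → ι) : Prop where
  cover : ∀ i, ∃ k, l k = i ∨ r k = i
  injl : Function.Injective l
  injr : Function.Injective r
  disj : ∀ k k', l k ≠ r k'

variable {l r : Fin m → ι}

theorem G_upd (h : Pairs l r) (A : ι → ι → ℚ) (p : ι) (σ : Equiv.Perm ι) :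
    (∃ b, b ≠ p ∧ ∃ R, ∀ v v', G l r (upd A p v v') σ = v b * R) ∨
    (∃ a, a ≠ p ∧ ∃ R, ∀ v v', G l r (upd A p v v') σ = v' a * R) := by
  obtain ⟨k0, hk⟩ := h.cover (σ.symm p)
  rcases hk with hk | hk
  · left
    have h0 : σ (l k0) = p := by rw [hk, Equiv.apply_symm_apply]
    have hr : ∀ k, σ (r k) ≠ p := fun k e => h.disj k0 k (σ.injective (h0.trans e.symm))
    have hl : ∀ k, k ≠ k0 → σ (l k) ≠ p := fun k hne e => hne (h.injl (σ.injective (e.trans h0.symm)))
    refine ⟨σ (r k0), hr k0, ∏ k ∈ univ.erase k0, A (σ (l k)) (σ (r k)), fun v v' => ?_⟩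
    unfold G
    rw [← Finset.mul_prod_erase _ _ (mem_univ k0)]
    congr 1
    · rw [upd, if_pos h0, if_neg (hr k0)]
    · apply Finset.prod_congr rfl
      intro k hk
      rw [upd, if_neg (hl k (Finset.ne_of_mem_erase hk)), if_neg (hr k)]
  · right
    have h0 : σ (r k0) = p := by rw [hk, Equiv.apply_symm_apply]
    have hl : ∀ k, σ (l k) ≠ p := fun k e => h.disj k k0 (σ.injective (e.trans h0.symm))
    have hr : ∀ k, k ≠ k0 → σ (r k) ≠ p := fun k hne e => hne (h.injr (σ.injective (e.trans h0.symm)))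
    refine ⟨σ (l k0), hl k0, ∏ k ∈ univ.erase k0, A (σ (l k)) (σ (r k)), fun v v' => ?_⟩
    unfold G
    rw [← Finset.mul_prod_erase _ _ (mem_univ k0)]
    congr 1
    · rw [upd, if_neg (hl k0), if_pos h0]
    · apply Finset.prod_congr rfl
      intro k hk
      rw [upd, if_neg (hl k), if_neg (hr k (Finset.ne_of_mem_erase hk))]

theorem G_congr (h : Pairs l r) {A B : ι → ι → ℚ} (hAB : ∀ a b, a ≠ b → A a b = B a b) (σ : Equiv.Perm ι) :
    G l r A σ = G l r B σ := by
  unfold G
  apply Finset.prod_congr rfl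
  intro k _
  exact hAB _ _ (fun e => h.disj k k (σ.injective e))

theorem pfs_congr (h : Pairs l r) {A B : ι → ι → ℚ} (hAB : ∀ a b, a ≠ b → A a b = B a b) :
    pfs l r A = pfs l r B := by
  unfold pfs
  apply Finset.sum_congr rfl
  intro σ _
  rw [G_congr h hAB σ]

/-- the difference of two matrices with different last row and column -/
theorem pfs_sub (h : Pairs l r) (A : ι → ι → ℚ) (p : ι) (v v' w w' : ι → ℚ) :
    pfs l r (upd A p v v') - pfs l r (upd A p w w') =
      pfs l r (upd A p (fun b => v b - w b) (fun a => v' a - w' a)) := by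
  unfold pfs
  rw [← Finset.sum_sub_distrib]
  apply Finset.sum_congr rfl
  intro σ _
  rcases G_upd h A p σ with ⟨b, -, R, hR⟩ | ⟨a, -, R, hR⟩
  · rw [hR, hR, hR]; ring
  · rw [hR, hR, hR]; ring

/-- equal rows and columns -/
theorem pfs_eq_zero_of_eq (h : Pairs l r) (A : ι → ι → ℚ) (p j : ι) (hj : j ≠ p) (hA : A j j = 0) :
    pfs l r (upd A p (A j) (fun a => A a j)) = 0 := by
  set B := upd A p (A j) (fun a => A a j) with hB
  let s : Equiv.Perm ι := Equiv.swap p j
  have hs : Equiv.Perm.sign s = -1 := Equiv.Perm.sign_swap hj.symm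
  have key : ∀ a b, a ≠ b → B (s a) (s b) = B a b := by
    intro a b hab
    have sp : s p = j := Equiv.swap_apply_left _ _
    have sj : s j = p := Equiv.swap_apply_right _ _
    have so : ∀ x, x ≠ p → x ≠ j → s x = x := fun x h1 h2 => Equiv.swap_apply_of_ne_of_ne h1 h2
    by_cases ap : a = p
    · subst ap
      by_cases bj : b = j
      · subst bj; rw [sp, sj, hB]; simp [upd, hj, hA]
      · rw [sp, so b hab.symm bj, hB]; simp [upd, hj, hab.symm]
    · by_cases aj : a = j
      · subst aj
        by_cases bp : b = p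
        · subst bp; rw [sp, sj, hB]; simp [upd, hj, hA]
        · rw [sj, so b bp hab.symm, hB]; simp [upd, hj, bp]
      · rw [so a ap aj]
        by_cases bp : b = p
        · subst bp; rw [sp, hB]; simp [upd, hj, ap]
        · by_cases bj : b = j
          · subst bj; rw [sj, hB]; simp [upd, hj, ap]
          · rw [so b bp bj]
  have h1 : pfs l r B = - pfs l r B := by
    conv_lhs => unfold pfs
    rw [← Equiv.sum_comp (Equiv.mulLeft s)]
    unfold pfs
    rw [← Finset.sum_neg_distrib]
    apply Finset.sum_congr rfl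
    intro σ _
    have e1 : G l r B (s * σ) = G l r B σ := by
      unfold G
      apply Finset.prod_congr rfl
      intro k _
      rw [Equiv.Perm.mul_apply, Equiv.Perm.mul_apply]
      exact key _ _ (fun e => h.disj k k (σ.injective e))
    rw [Equiv.coe_mulLeft, e1, Equiv.Perm.sign_mul, hs]
    push_cast
    ring
  linarith

/-- a kernel vector -/
theorem pfs_eq_zero_of_kernel (h : Pairs l r) (A : ι → ι → ℚ) (hA : ∀ j, A j j = 0) (z : ι → ℚ) (p : ι)
    (hz : z p ≠ 0) (h1 : ∀ b, ∑ j, z j * A j b = 0) (h2 : ∀ a, ∑ j, z j * A a j = 0) : pfs l r A = 0 := by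
  have e : ∑ j, z j * pfs l r (upd A p (A j) (fun a => A a j)) = 0 := by
    unfold pfs
    simp only [Finset.mul_sum]
    rw [Finset.sum_comm]
    apply Finset.sum_eq_zero
    intro σ _
    rcases G_upd h A p σ with ⟨b, -, R, hR⟩ | ⟨a, -, R, hR⟩
    · simp only [hR]
      have : ∀ j, z j * (((Equiv.Perm.sign σ : ℤ) : ℚ) * (A j b * R)) =
          (z j * A j b) * (((Equiv.Perm.sign σ : ℤ) : ℚ) * R) := fun j => by ring
      rw [Finset.sum_congr rfl (fun j _ => this j), ← Finset.sum_mul, h1, zero_mul]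
    · simp only [hR]
      have : ∀ j, z j * (((Equiv.Perm.sign σ : ℤ) : ℚ) * (A a j * R)) =
          (z j * A a j) * (((Equiv.Perm.sign σ : ℤ) : ℚ) * R) := fun j => by ring
      rw [Finset.sum_congr rfl (fun j _ => this j), ← Finset.sum_mul, h2, zero_mul]
  rw [← Finset.add_sum_erase _ _ (mem_univ p), Finset.sum_eq_zero (s := univ.erase p), add_zero] at e
  · have e2 : pfs l r (upd A p (A p) (fun a => A a p)) = pfs l r A := by
      apply pfs_congr h
      intro a b hab
      unfold upd
      split_ifs with h3 h4 h4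
      · exact absurd (h3.trans h4.symm) hab
      · rw [h3]
      · rw [h4]
      · rfl
    rw [e2] at e
    exact (mul_eq_zero.mp e).resolve_left hz
  · intro j hj
    rw [pfs_eq_zero_of_eq h A p j (Finset.ne_of_mem_erase hj) (hA j), mul_zero]

/-- the Pfaffian of a skew-symmetric matrix of size `2 m` -/
def pf {m : ℕ} (A : Matrix (Fin (2 * m)) (Fin (2 * m)) ℚ) : ℚ :=
  (∑ σ : Equiv.Perm (Fin (2 * m)), ((Equiv.Perm.sign σ : ℤ) : ℚ) *
    ∏ k : Fin m, A (σ ⟨2 * k, by omega⟩) (σ ⟨2 * k + 1, by omega⟩)) / (2 ^ m * (m.factorial : ℚ))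

theorem pairs_fin (m : ℕ) : Pairs (fun k : Fin m => (⟨2 * k, by omega⟩ : Fin (2 * m)))
    (fun k : Fin m => (⟨2 * k + 1, by omega⟩ : Fin (2 * m))) where
  cover i := by
    refine ⟨⟨(i : ℕ) / 2, by omega⟩, ?_⟩
    rcases Nat.even_or_odd' (i : ℕ) with ⟨k, hk | hk⟩
    · left; apply Fin.ext; simp only; omega
    · right; apply Fin.ext; simp only; omega
  injl k k' e := by
    have := Fin.mk.inj_iff.mp e
    apply Fin.ext; omega
  injr k k' e := by
    have := Fin.mk.inj_iff.mp e
    apply Fin.ext; omega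
  disj k k' e := by
    have := Fin.mk.inj_iff.mp e
    omega

/-- the skew-symmetric matrix of size `2 n + 2` with the entries `c a b` (`a < b ≤ 2 n`) and the last
column `v` -/
def bordered (c : ℕ → ℕ → ℚ) (v : ℕ → ℚ) (n : ℕ) :
    Matrix (Fin (2 * (n + 1))) (Fin (2 * (n + 1))) ℚ :=
  fun a b =>
    if (a : ℕ) < b then (if (b : ℕ) = 2 * n + 1 then v a else c a b)
    else if (b : ℕ) < a then - (if (a : ℕ) = 2 * n + 1 then v b else c b a)
    else 0

/-- the same matrix as a function -/
def bf (c : ℕ → ℕ → ℚ) (v : ℕ → ℚ) (n : ℕ) (a b : Fin (2 * (n + 1))) : ℚ :=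
    if (a : ℕ) < b then (if (b : ℕ) = 2 * n + 1 then v a else c a b)
    else if (b : ℕ) < a then - (if (a : ℕ) = 2 * n + 1 then v b else c b a)
    else 0

open Polynomial in
/-- a polynomial of degree at most `2 n`, symmetric about `1/2`, in the kernel of the form -/
theorem exists_kernel {c : ℕ → ℕ → ℚ} (h : IsArr c) (h01 : c 0 1 = 1) (n : ℕ) : ∃ w : ℚ[X], w ≠ 0 ∧
    w.natDegree ≤ 2 * n ∧ (∀ t : ℚ, w.eval (1 - t) = w.eval t) ∧ ∀ b ≤ 2 * n, bil c w (X ^ b) = 0 := by
  classical
  let Gm : Matrix (Fin n) (Fin (n + 1)) ℚ := fun j i =>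
    bil c ((X - C (1 / 2)) ^ (2 * (i : ℕ))) ((X - C (1 / 2)) ^ (2 * (j : ℕ) + 1))
  have hker : (Matrix.toLin' Gm).ker ≠ ⊥ := by
    apply LinearMap.ker_ne_bot_of_finrank_lt
    simp
  obtain ⟨q, hq, hq0⟩ := Submodule.exists_mem_ne_zero_of_ne_bot hker
  rw [LinearMap.mem_ker, Matrix.toLin'_apply] at hq
  let W : ℚ[X] := ∑ i : Fin (n + 1), C (q i) * X ^ (2 * (i : ℕ))
  have hWc : ∀ i : Fin (n + 1), W.coeff (2 * (i : ℕ)) = q i := by
    intro i
    simp only [W, finsetSum_coeff, coeff_C_mul, coeff_X_pow]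
    rw [Finset.sum_eq_single i]
    · simp
    · intro j _ hj
      rw [if_neg, mul_zero]
      intro e
      exact hj (Fin.ext (by omega))
    · simp
  have hW0 : W ≠ 0 := by
    intro e
    apply hq0
    funext i
    rw [← hWc i, e, coeff_zero]; rfl
  have hWd : W.natDegree ≤ 2 * n := by
    apply Polynomial.natDegree_sum_le_of_forall_le
    intro i _
    refine (natDegree_C_mul_le _ _).trans ?_
    rw [natDegree_X_pow]
    have := i.2
    omega
  have hWe : ∀ x : ℚ, W.eval (-x) = W.eval x := by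
    intro x
    simp only [W, eval_finsetSum, eval_mul, eval_C, eval_pow, eval_X]
    apply Finset.sum_congr rfl
    intro i _
    rw [pow_mul, pow_mul, neg_sq]
  have hwsum : W.comp (X - C (1 / 2)) = ∑ i : Fin (n + 1), q i • (X - C (1 / 2)) ^ (2 * (i : ℕ)) := by
    have hc : ∀ p : ℚ[X], p.comp (X - C (1 / 2)) = Polynomial.compRingHom (X - C (1 / 2)) p := fun _ => rfl
    rw [hc]
    simp only [W, map_sum]
    apply Finset.sum_congr rfl
    intro i _
    rw [← hc, mul_comp, C_comp, pow_comp, X_comp, Polynomial.smul_eq_C_mul]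
  refine ⟨W.comp (X - C (1 / 2)), ?_, ?_, ?_, ?_⟩
  · intro e
    apply hW0
    have h1 := congrArg (fun p : ℚ[X] => p.comp (X + C (1 / 2))) e
    simp only [zero_comp, comp_assoc, sub_comp, X_comp, C_comp, add_sub_cancel_right, comp_X] at h1
    exact h1
  · rw [natDegree_comp, natDegree_X_sub_C, mul_one]
    exact hWd
  · intro t
    rw [eval_comp, eval_comp]
    simp only [eval_sub, eval_X, eval_C]
    rw [← hWe]
    congr 1
    ring
  · have hodd : ∀ j : ℕ, j < n → bil c (W.comp (X - C (1 / 2))) ((X - C (1 / 2)) ^ (2 * j + 1)) = 0 := by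
      intro j hj
      have := congrFun hq ⟨j, hj⟩
      rw [hwsum, map_sum, LinearMap.sum_apply]
      simp only [Matrix.mulVec, dotProduct, Gm, Pi.zero_apply] at this
      rw [← this]
      apply Finset.sum_congr rfl
      intro i _
      rw [map_smul, LinearMap.smul_apply, smul_eq_mul, mul_comm]
    have heven : ∀ j : ℕ, bil c (W.comp (X - C (1 / 2))) ((X - C (1 / 2)) ^ (2 * j)) = 0 := by
      intro j
      rw [hwsum, map_sum, LinearMap.sum_apply]
      apply Finset.sum_eq_zero
      intro i _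
      rw [map_smul, LinearMap.smul_apply, h.centred h01 _ _ (by rw [← mul_add]; exact even_two_mul _), smul_zero]
    intro b hb
    have e : (X : ℚ[X]) ^ b = ∑ j ∈ range (b + 1), ((1 / 2 : ℚ) ^ (b - j) * (b.choose j : ℚ)) • (X - C (1 / 2)) ^ j := by
      have h1 : (X : ℚ[X]) = (X - C (1 / 2)) + C (1 / 2) := by ring
      conv_lhs => rw [h1, add_pow]
      apply Finset.sum_congr rfl
      intro j _
      rw [Polynomial.smul_eq_C_mul, map_mul, map_pow, map_natCast]
      ring
    rw [e, map_sum]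
    apply Finset.sum_eq_zero
    intro j hj
    rw [Finset.mem_range] at hj
    rw [map_smul]
    rcases Nat.even_or_odd' j with ⟨k, hk | hk⟩
    · rw [hk, heven, smul_zero]
    · rw [hk, hodd k (by omega), smul_zero]

open Polynomial in
/-- **the Pfaffian only depends on the pairing of the last column with the polynomials symmetric about
`1/2`** -/
theorem pf_bordered {c : ℕ → ℕ → ℚ} (h : IsArr c) (h01 : c 0 1 = 1) (n : ℕ) (v v' : ℕ → ℚ)
    (hv : ∀ w : ℚ[X], w.natDegree ≤ 2 * n → (∀ t : ℚ, w.eval (1 - t) = w.eval t) →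
      ∑ j ∈ range (2 * n + 1), w.coeff j * (v j - v' j) = 0) :
    pf (bordered c v n) = pf (bordered c v' n) := by
  have hP := pairs_fin (n + 1)
  set l : Fin (n + 1) → Fin (2 * (n + 1)) := fun k => ⟨2 * k, by omega⟩ with hl
  set r : Fin (n + 1) → Fin (2 * (n + 1)) := fun k => ⟨2 * k + 1, by omega⟩ with hr
  have hpf : ∀ v : ℕ → ℚ,
      pf (bordered c v n) = pfs l r (bf c v n) / (2 ^ (n + 1) * ((n + 1).factorial : ℚ)) := fun v => rfl
  rw [hpf, hpf]
  congr 1
  let p : Fin (2 * (n + 1)) := ⟨2 * n + 1, by omega⟩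
  have hupd : ∀ v : ℕ → ℚ, pfs l r (bf c v n) =
      pfs l r (upd (bf c 0 n) p (fun b => - v b) (fun a => v a)) := by
    intro v
    apply pfs_congr hP
    intro a b hab
    have hab' : (a : ℕ) ≠ b := fun e => hab (Fin.ext e)
    have ha := a.2
    have hb := b.2
    have e1 : a = p ↔ (a : ℕ) = 2 * n + 1 := by rw [Fin.ext_iff]
    have e2 : b = p ↔ (b : ℕ) = 2 * n + 1 := by rw [Fin.ext_iff]
    simp only [upd, bf, e1, e2]
    split_ifs <;> first | rfl | omega
  rw [← sub_eq_zero, hupd, hupd, pfs_sub hP]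
  set u : ℕ → ℚ := fun a => v a - v' a with hu
  have e : pfs l r (upd (bf c 0 n) p (fun b => - v (b : ℕ) - - v' (b : ℕ))
      (fun a => v (a : ℕ) - v' (a : ℕ))) = pfs l r (bf c u n) := by
    rw [hupd]
    congr 2
    funext b; simp only [hu]; ring
  rw [e]
  -- the kernel vector
  obtain ⟨w, hw0, hwd, hwe, hwk⟩ := exists_kernel h h01 n
  obtain ⟨p0, hp0⟩ : ∃ i, w.coeff i ≠ 0 := by
    by_contra hne
    push Not at hne
    exact hw0 (Polynomial.ext (fun i => by rw [hne i, coeff_zero]))
  have hp0d : p0 ≤ 2 * n := (le_natDegree_of_ne_zero hp0).trans hwd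
  have hws : w = ∑ i ∈ range (2 * n + 1), monomial i (w.coeff i) := w.as_sum_range' _ (by omega)
  let z : Fin (2 * (n + 1)) → ℚ := fun i => if (i : ℕ) = 2 * n + 1 then 0 else w.coeff i
  have hskew : ∀ a b, bf c u n a b = - bf c u n b a := by
    intro a b
    unfold bf
    split_ifs <;> first | omega | simp
  have hrow : ∀ a, ∑ j, z j * bf c u n a j = 0 := by
    intro a
    have s1 : ∑ j, z j * bf c u n a j = ∑ j ∈ range (2 * n + 1), w.coeff j *
        (if (a : ℕ) = 2 * n + 1 then - u j else c a j) := by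
      have s2 : ∀ f : ℕ → ℚ, ∑ j : Fin (2 * (n + 1)), f j = ∑ j ∈ range (2 * n + 1 + 1), f j := by
        intro f
        have e : 2 * n + 1 + 1 = 2 * (n + 1) := by ring
        rw [e, Finset.sum_range]
      let F : ℕ → ℚ := fun j => if j = 2 * n + 1 then 0 else
        w.coeff j * (if (a : ℕ) = 2 * n + 1 then - u j else c a j)
      have s3 : ∀ j : Fin (2 * (n + 1)), z j * bf c u n a j = F (j : ℕ) := by
        intro j
        have ha := a.2
        have hj := j.2
        simp only [z, F]
        split_ifs with h1 h2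
        · rw [zero_mul]
        · congr 1
          simp only [bf]
          rw [if_neg (by omega), if_pos (by omega), if_pos h2]
        · congr 1
          simp only [bf]
          rcases lt_trichotomy (a : ℕ) j with h3 | h3 | h3
          · rw [if_pos h3, if_neg h1]
          · rw [if_neg (by omega), if_neg (by omega), h3]
            have := h.skew (j : ℕ) j
            linarith
          · rw [if_neg (by omega), if_pos h3, if_neg h2, h.skew (a : ℕ) j]
      have s4 : F (2 * n + 1) = 0 := if_pos rfl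
      rw [Finset.sum_congr rfl (fun j _ => s3 j), s2 F, Finset.sum_range_succ, s4, add_zero]
      apply Finset.sum_congr rfl
      intro j hj
      rw [Finset.mem_range] at hj
      simp only [F]
      rw [if_neg (by omega)]
    rw [s1]
    by_cases ha : (a : ℕ) = 2 * n + 1
    · simp only [if_pos ha]
      have := hv w hwd hwe
      rw [← neg_eq_zero, ← this, ← Finset.sum_neg_distrib]
      apply Finset.sum_congr rfl
      intro j _
      simp only [hu]
      ring
    · simp only [if_neg ha]
      have h1 := hwk a (by have := a.2; omega)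
      rw [h.bil_skew, neg_eq_zero, hws, map_sum] at h1
      rw [← h1]
      apply Finset.sum_congr rfl
      intro j _
      rw [← monomial_one_right_eq_X_pow, bil_monomial]
      ring
  apply pfs_eq_zero_of_kernel hP _ (fun j => by unfold bf; simp) z ⟨p0, by omega⟩
  · simp only [z]
    rw [if_neg (by omega)]
    exact hp0
  · intro b
    have := hrow b
    rw [← neg_eq_zero, ← Finset.sum_neg_distrib] at this
    rw [← this]
    apply Finset.sum_congr rfl
    intro j _
    rw [hskew j b]
    ring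
  · exact hrow

open Polynomial in
/-- the last columns `t ^ a` and `(1 - t) ^ a` -/
theorem pf_pow {c : ℕ → ℕ → ℚ} (h : IsArr c) (h01 : c 0 1 = 1) (n : ℕ) (t : ℚ) :
    pf (bordered c (fun a => t ^ a) n) = pf (bordered c (fun a => (1 - t) ^ a) n) := by
  apply pf_bordered h h01
  intro w hwd hwe
  have ev : ∀ x : ℚ, w.eval x = ∑ j ∈ range (2 * n + 1), w.coeff j * x ^ j := fun x =>
    Polynomial.eval_eq_sum_range' (by omega) x
  have := hwe t
  rw [ev, ev, ← sub_eq_zero, ← Finset.sum_sub_distrib] at this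
  rw [← neg_eq_zero, ← this, ← Finset.sum_neg_distrib]
  apply Finset.sum_congr rfl
  intro j _
  ring

open Polynomial in
/-- **the two Pfaffians agree** -/
theorem pf_two {c : ℕ → ℕ → ℚ} (h : IsArr c) (h01 : c 0 1 = 1) (n : ℕ) :
    pf (bordered c (fun a => (-1) ^ a) n) = pf (bordered c (fun a => ((-1) ^ a + 2 ^ a) / 2) n) := by
  apply pf_bordered h h01
  intro w hwd hwe
  have ev : ∀ x : ℚ, w.eval x = ∑ j ∈ range (2 * n + 1), w.coeff j * x ^ j := fun x =>
    Polynomial.eval_eq_sum_range' (by omega) x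
  have := hwe (-1)
  rw [ev, ev, ← sub_eq_zero, ← Finset.sum_sub_distrib] at this
  have h2 : ∑ j ∈ range (2 * n + 1), w.coeff j * ((-1) ^ j - ((-1) ^ j + 2 ^ j) / 2) =
      - (∑ j ∈ range (2 * n + 1), (w.coeff j * (1 - -1) ^ j - w.coeff j * (-1) ^ j)) / 2 := by
    rw [← Finset.sum_neg_distrib, Finset.sum_div]
    apply Finset.sum_congr rfl
    intro j _
    norm_num
    ring
  rw [h2, this]
  simp

end Pool.Agent.Q258.OS
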